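import Pool.Agent.helper73.SHL.Spec

/-!
# SHL, row DEG: the degree of a commutative subfield
-/

set_option autoImplicit false

namespace Pool.Agent.SHL

open Matrix Module Pool.Agent.PR

/-- The case of a field acting on `L`. -/
theorem DEG_aux (hLIN : LIN_stmt) (D : Type) [DivisionRing D] [Algebra ℚ D] [FiniteDimensional ℚ D]
    (d : ℕ) (hc : Algebra.IsCentral ℚ D) (hd : finrank ℚ D = d * d) (L : Type) [AddCommGroup L]
    [Module D L] [Module ℚ L] [IsScalarTower ℚ D L] [Module.Finite D L] [Nontrivial L]
    (F : Type) [Field F] [Algebra ℚ F] [Module F L] [IsScalarTower ℚ F L] [SMulCommClass D F L] :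
    finrank ℚ F ≤ d * finrank D L := by
  have : CharZero F := charZero_of_injective_algebraMap (algebraMap ℚ F).injective
  have : Module.Finite ℚ L := Module.Finite.trans D L
  have : Module.Finite F L := Module.Finite.of_restrictScalars_finite ℚ F L
  have h1 := hLIN D hc F (Module.End F L) (Module.toModuleEnd F L) _ (Module.finBasis ℚ D)
    (Module.finBasis ℚ D).linearIndependent
  have h2 : d * d ≤ finrank F L * finrank F L := by
    have h3 := h1.fintype_card_le_finrank
    rw [Fintype.card_fin, hd, Module.finrank_linearMap] at h3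
    exact h3
  have h3 : finrank ℚ F * finrank F L = finrank ℚ L := Module.finrank_mul_finrank ℚ F L
  have h4 : finrank ℚ D * finrank D L = finrank ℚ L := Module.finrank_mul_finrank ℚ D L
  have h5 : d ≤ finrank F L := by
    by_contra h
    push Not at h
    exact absurd h2 (not_le.2 (Nat.mul_self_lt_mul_self h))
  have hdpos : 0 < d := by
    have h6 : 0 < finrank ℚ D := Module.finrank_pos
    rw [hd] at h6
    exact Nat.pos_of_mul_pos_left h6
  have h7 : d * finrank ℚ F ≤ d * (d * finrank D L) := by
    calc d * finrank ℚ F ≤ finrank F L * finrank ℚ F := Nat.mul_le_mul_right _ h5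
      _ = d * (d * finrank D L) := by rw [mul_comm, h3, ← h4, hd, mul_assoc]
  exact Nat.le_of_mul_le_mul_left h7 hdpos

/-- row DEG -/
theorem DEG (hLIN : LIN_stmt) : DEG_stmt := by
  intro D _ _ _ d hc hd L _ _ _ _ _ _ E hcomm hinj
  have : Module.Finite ℚ L := Module.Finite.trans D L
  let ρ : E →ₗ[ℚ] Module.End ℚ L :=
    { toFun := fun x => (x : Module.End D L).restrictScalars ℚ
      map_add' := fun x y => rfl
      map_smul' := fun c x => rfl }
  have : FiniteDimensional ℚ E := by
    refine FiniteDimensional.of_injective ρ fun x y hxy => ?_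
    apply Subtype.ext
    ext v
    exact LinearMap.congr_fun hxy v
  let : CommRing E := { E.toRing with
    mul_comm := fun x y => Subtype.ext (hcomm x x.2 y y.2) }
  have : IsDomain E := by
    have : Nontrivial E := ⟨0, 1, fun h => by
      obtain ⟨v, hv⟩ := exists_ne (0 : L)
      apply hv
      have h1 : (0 : Module.End D L) = 1 := congrArg Subtype.val h
      have h2 := LinearMap.congr_fun h1 v
      exact h2.symm⟩
    have : NoZeroDivisors E := ⟨fun {x y} hxy => by
      by_contra hcon
      push Not at hcon
      have hx : (x : Module.End D L) ≠ 0 := fun h => hcon.1 (Subtype.ext h)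
      apply hcon.2
      apply Subtype.ext
      ext v
      apply hinj x x.2 hx
      have h1 : (x : Module.End D L) * (y : Module.End D L) = 0 := congrArg Subtype.val hxy
      have h2 := LinearMap.congr_fun h1 v
      rw [ZeroMemClass.coe_zero, LinearMap.zero_apply, map_zero]
      exact h2⟩
    exact NoZeroDivisors.to_isDomain E
  let : Field E := fieldOfFiniteDimensional ℚ E
  exact DEG_aux hLIN D d hc hd L E

end Pool.Agent.SHL
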