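import Pool.Agent.helper73.SHL.Spec

/-!
# SHL, row HA: basic properties of `Hi`
-/

set_option autoImplicit false

namespace Pool.Agent.SHL

open Matrix Module Pool.Agent.PR

theorem HA_mono {G : Type} [Group G] (N : ℕ) (H H' : Subgroup G) (h : H ≤ H') (hN : Hi N H) :
    Hi N H' := by
  cases N with
  | zero => trivial
  | succ N =>
    obtain ⟨K, L, h1, h2, h3, h4, h5⟩ := hN
    exact ⟨K, L, h1, h2.trans h, h3, h4, h5⟩

theorem HA_pred {G : Type} [Group G] (N : ℕ) : ∀ H : Subgroup G, Hi (N + 1) H → Hi N H := by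
  induction N with
  | zero => intro H _; trivial
  | succ N ih =>
    intro H hN
    obtain ⟨K, L, h1, h2, h3, h4, h5⟩ := hN
    exact ⟨K, L, h1, h2, h3, h4, ih K h5⟩

theorem HA_fin {G : Type} [Group G] (N : ℕ) : ∀ H H' : Subgroup G, H'.relIndex H ≠ 0 → Hi N H →
    Hi N (H' ⊓ H) := by
  induction N with
  | zero => intro H H' _ _; trivial
  | succ N ih =>
    intro H H' hi hN
    obtain ⟨K, L, h1, h2, h3, ⟨g, hg, hgj⟩, h5⟩ := hN
    have hiK : H'.relIndex K ≠ 0 := fun h =>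
      hi (Subgroup.relIndex_eq_zero_of_le_right (h1.trans h2) h)
    obtain ⟨m, hm, -, hgm⟩ := Subgroup.exists_pow_mem_of_relIndex_ne_zero hi (h2 hg)
    refine ⟨H' ⊓ K, H' ⊓ L, inf_le_inf_left _ h1, inf_le_inf_left _ h2, ?_, ⟨g ^ m, ?_, ?_⟩, ih K H' hiK h5⟩
    · intro l hl k hk
      exact ⟨H'.mul_mem (H'.mul_mem hl.1 hk.1) (H'.inv_mem hl.1), h3 l hl.2 k hk.2⟩
    · exact ⟨hgm.1, L.pow_mem hg m⟩
    · intro j hj hmem
      refine hgj (m * j) (Nat.mul_pos hm hj) ?_
      rw [pow_mul]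
      exact hmem.2

theorem HA_tor {G : Type} [Group G] (N : ℕ) (H : Subgroup G) (h : ∀ x ∈ H, ∃ j : ℕ, 0 < j ∧ x ^ j = 1)
    (hN : Hi N H) : N = 0 := by
  cases N with
  | zero => rfl
  | succ N =>
    obtain ⟨K, L, h1, h2, h3, ⟨g, hg, hgj⟩, h5⟩ := hN
    obtain ⟨j, hj, hgj1⟩ := h g (h2 hg)
    exact absurd (hgj1 ▸ K.one_mem) (hgj j hj)

theorem HA_cyc {G : Type} [Group G] (N : ℕ) (H : Subgroup G) (z : G)
    (h : ∀ x ∈ H, ∃ j : ℕ, 0 < j ∧ ∃ m : ℤ, x ^ j = z ^ m) (hN : Hi N H) : N ≤ 1 := by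
  cases N with
  | zero => exact Nat.zero_le 1
  | succ N =>
    obtain ⟨K, L, h1, h2, h3, ⟨g, hg, hgj⟩, h5⟩ := hN
    obtain ⟨j, hj, m, hm⟩ := h g (h2 hg)
    have hK : ∀ x ∈ K, ∃ j : ℕ, 0 < j ∧ x ^ j = 1 := by
      intro x hx
      obtain ⟨i, hi, a, ha⟩ := h x (h2 (h1 hx))
      by_cases ha0 : a = 0
      · exact ⟨i, hi, by rw [ha, ha0, _root_.zpow_zero]⟩
      · exfalso
        have hpos : 0 < j * a.natAbs := Nat.mul_pos hj (Int.natAbs_pos.2 ha0)
        refine hgj (j * a.natAbs) hpos ?_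
        have e1 : g ^ (j * a.natAbs) = z ^ (m * (a.natAbs : ℤ)) := by
          rw [pow_mul, hm, _root_.zpow_mul, _root_.zpow_natCast]
        rw [e1]
        have e2 : z ^ (m * a) ∈ K := by
          have e3 : z ^ (m * a) = (x ^ i) ^ m := by
            rw [ha, ← _root_.zpow_mul, mul_comm]
          rw [e3]
          exact K.zpow_mem (K.pow_mem hx i) m
        rcases Int.natAbs_eq a with h6 | h6
        · rw [← h6]
          exact e2
        · have h7 : m * (a.natAbs : ℤ) = -(m * a) := by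
            have : (a.natAbs : ℤ) = -a := by omega
            rw [this]
            ring
          rw [h7, _root_.zpow_neg]
          exact K.inv_mem e2
    have := HA_tor N K hK h5
    omega

theorem HA_comap {G : Type} [Group G] {G' : Type} [Group G'] (φ : G' →* G)
    (N : ℕ) : ∀ H : Subgroup G, H ≤ φ.range → Hi N H → Hi N (H.comap φ) := by
  induction N with
  | zero => intro H _ _; trivial
  | succ N ih =>
    intro H hH hN
    obtain ⟨K, L, h1, h2, h3, ⟨g, hg, hgj⟩, h5⟩ := hN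
    refine ⟨K.comap φ, L.comap φ, Subgroup.comap_mono h1, Subgroup.comap_mono h2, ?_, ?_,
      ih K ((h1.trans h2).trans hH) h5⟩
    · intro l hl k hk
      rw [Subgroup.mem_comap] at hl hk ⊢
      rw [map_mul, map_mul, map_inv]
      exact h3 _ hl _ hk
    · obtain ⟨g', rfl⟩ := hH (h2 hg)
      refine ⟨g', hg, fun j hj hmem => hgj j hj ?_⟩
      rw [Subgroup.mem_comap, map_pow] at hmem
      exact hmem

/-- row HA -/
theorem HA : HA_stmt := by
  intro G _
  refine ⟨fun N H H' h hN => HA_mono N H H' h hN, fun N H hN => HA_pred N H hN,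
    fun N H H' h hN => HA_fin N H H' h hN, fun N H h hN => HA_tor N H h hN,
    fun N H z h hN => HA_cyc N H z h hN, ?_⟩
  intro G' _ φ _ N H hH hN
  exact HA_comap φ N H hH hN

end Pool.Agent.SHL
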